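import Pool.Agent.Helper37.SU.Stmts

set_option autoImplicit false

open Finset

namespace Pool.Agent.Helper37.SU

theorem st_EC (hR3 : ST_R3) (hSCH : ST_SCH) : ST_EC := by
  intro b d v hb hd hv
  obtain ⟨C, hC, hR⟩ := hR3 b d hb hd
  refine ⟨2 * C, by positivity, ?_⟩
  intro m l l' x z hx hlm hml
  obtain ⟨hrow, hcol⟩ := hR m l l' x hx hlm
  have hl0 : (0 : ℝ) ≤ l := Nat.cast_nonneg l
  have hl0' : (0 : ℝ) ≤ l' := Nat.cast_nonneg l'
  have hb0 : (0 : ℝ) < b := by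
    have : 0 < b := by omega
    exact_mod_cast this
  have hb1 : (1 : ℝ) ≤ b := by
    have : 1 ≤ b := by omega
    exact_mod_cast this
  have hbase : (1 : ℝ) ≤ 1 + (l : ℝ) + l' := by linarith
  have hpow : ∀ y : ℝ, 0 ≤ y → y ≤ 1 + (l : ℝ) + l' → y ^ (d - 1) ≤ (1 + (l : ℝ) + l') ^ d := by
    intro y hy0 hy
    calc y ^ (d - 1) ≤ (1 + (l : ℝ) + l') ^ (d - 1) := pow_le_pow_left₀ hy0 hy _
      _ ≤ (1 + (l : ℝ) + l') ^ d := pow_le_pow_right₀ hbase (by omega)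
  have hM : 0 < 2 * C * (1 + (l : ℝ) + l') ^ d := by positivity
  have h1 : ∀ B ∈ lev b d l, ∑ B' ∈ lev b d l', ‖Ent b m x B B'‖ ≤
      2 * C * (1 + (l : ℝ) + l') ^ d := by
    intro B hB
    have h := hrow B hB
    have h2 := hpow (1 + (l' : ℝ)) (by linarith) (by linarith)
    have h3 : C * (1 + (l' : ℝ)) ^ (d - 1) ≤ C * (1 + (l : ℝ) + l') ^ d :=
      mul_le_mul_of_nonneg_left h2 hC.le
    have h4 : 0 ≤ C * (1 + (l : ℝ) + l') ^ d := by positivity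
    linarith
  have h2 : ∀ B' ∈ lev b d l', ∑ B ∈ lev b d l, ‖Ent b m x B B'‖ ≤
      2 * C * (1 + (l : ℝ) + l') ^ d := by
    intro B' hB'
    have h := hcol B' hB'
    have h2 := hpow (1 + (l : ℝ)) (by linarith) (by linarith)
    have h3 : C * (1 + (l : ℝ)) ^ (d - 1) ≤ C * (1 + (l : ℝ) + l') ^ d :=
      mul_le_mul_of_nonneg_left h2 hC.le
    have h3' : 0 ≤ C * (1 + (l : ℝ)) ^ (d - 1) := by positivity
    have h5 : (b : ℝ) ^ l / (b : ℝ) ^ m ≤ 1 := by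
      rw [div_le_one (by positivity)]
      exact pow_le_pow_right₀ hb1 hlm
    have h5' : 0 ≤ (b : ℝ) ^ l / (b : ℝ) ^ m := by positivity
    have h6 : (b : ℝ) ^ m / (b : ℝ) ^ l' ≤ 1 := by
      rw [div_le_one (by positivity)]
      exact pow_le_pow_right₀ hb1 hml
    have h6' : 0 ≤ 1 + (b : ℝ) ^ m / (b : ℝ) ^ l' := by positivity
    calc ∑ B ∈ lev b d l, ‖Ent b m x B B'‖ ≤ C * (1 + (l : ℝ)) ^ (d - 1) *
          ((b : ℝ) ^ l / (b : ℝ) ^ m) * (1 + (b : ℝ) ^ m / (b : ℝ) ^ l') := h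
      _ ≤ C * (1 + (l : ℝ)) ^ (d - 1) * 1 * (1 + 1) := by
          apply mul_le_mul _ (by linarith) h6' (by positivity)
          exact mul_le_mul_of_nonneg_left h5 h3'
      _ ≤ 2 * C * (1 + (l : ℝ) + l') ^ d := by linarith
  have h := hSCH (Bo d) (Bo d) v (2 * C * (1 + (l : ℝ) + l') ^ d) (2 * C * (1 + (l : ℝ) + l') ^ d)
    (lev b d l) (lev b d l') (fun B B' => Ent b m x B B') z hv hM.le hM.le h1 h2
  have e : (2 * C * (1 + (l : ℝ) + l') ^ d) ^ (1 - 1 / v) * (2 * C * (1 + (l : ℝ) + l') ^ d) ^ (1 / v)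
      = 2 * C * (1 + (l : ℝ) + l') ^ d := by
    rw [← Real.rpow_add hM]
    have : 1 - 1 / v + 1 / v = 1 := by ring
    rw [this, Real.rpow_one]
  rw [e] at h
  exact h

end Pool.Agent.Helper37.SU
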