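import Pool.Agent.Helper37.SU.Stmts

set_option autoImplicit false

open MeasureTheory Finset

namespace Pool.Agent.Helper37.SU

theorem r1_ev_nonneg (b j : ℕ) (t : UnitAddCircle) : 0 ≤ ev b j t := by
  unfold ev; positivity

theorem r1_ev_le_one (b j : ℕ) (t : UnitAddCircle) : ev b j t ≤ 1 := by
  unfold ev
  apply inv_le_one_of_one_le₀
  have h : 0 ≤ (b : ℝ) ^ j * ‖t‖ := by positivity
  nlinarith

theorem r1_EV_nonneg {d : ℕ} (b : ℕ) (B : Bo d) (t : TT d) : 0 ≤ EV b B t :=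
  Finset.prod_nonneg (fun i _ => r1_ev_nonneg _ _ _)

/-- the corner of the finer interval -/
noncomputable def r1_c {d : ℕ} (b : ℕ) (B B' : Bo d) : TT d := fun i =>
  if B.1 i ≤ B'.1 i then pt b (B'.1 i) (B'.2 i) else pt b (B.1 i) (B.2 i)

theorem r1_mul_le {d : ℕ} (b : ℕ) (B B' : Bo d) (t : TT d) :
    EV b B t * EV b B' t ≤ ∏ i, ev b (max (B.1 i) (B'.1 i)) (t i - r1_c b B B' i) := by
  unfold EV
  rw [← Finset.prod_mul_distrib]
  apply Finset.prod_le_prod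
  · intro i _
    exact mul_nonneg (r1_ev_nonneg _ _ _) (r1_ev_nonneg _ _ _)
  · intro i _
    unfold r1_c
    by_cases h : B.1 i ≤ B'.1 i
    · rw [if_pos h, max_eq_right h]
      exact mul_le_of_le_one_left (r1_ev_nonneg _ _ _) (r1_ev_le_one _ _ _)
    · rw [if_neg h, max_eq_left (le_of_not_ge h)]
      exact mul_le_of_le_one_right (r1_ev_nonneg _ _ _) (r1_ev_le_one _ _ _)

theorem st_R1 (hENN : ST_ENN) (hENF : ST_ENF) (hOVX : ST_OVX) (hEVI : ST_EVI) : ST_R1 := by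
  intro b d hb
  obtain ⟨C1, hC1, hN⟩ := hENN b d hb
  obtain ⟨C2, hC2, hF⟩ := hENF b d hb
  obtain ⟨C3, hC3, hO⟩ := hOVX b d (by omega)
  obtain ⟨C4, hC4, hI, -⟩ := hEVI b d (by omega)
  refine ⟨C1 + C2 * (2 * C3 + C4), by positivity, ?_⟩
  intro m l l' x hx hlm B hB B' hB'
  have hBl : ∑ i, B.1 i = l := (mem_lev.1 hB).1
  have hb0 : (0 : ℝ) < b := by
    have : 0 < b := by omega
    exact_mod_cast this
  have hb1 : (1 : ℝ) ≤ b := by
    have : 1 ≤ b := by omega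
    exact_mod_cast this
  have hr : 0 ≤ (b : ℝ) ^ l / (b : ℝ) ^ m := by positivity
  have hlmax : l ≤ ∑ i, max (B.1 i) (B'.1 i) := by
    rw [← hBl]
    exact Finset.sum_le_sum (fun i _ => le_max_left _ _)
  have hbase : (1 : ℝ) ≤ (1 + ((m - l : ℕ) : ℝ)) ^ d := by
    apply one_le_pow₀
    have : (0 : ℝ) ≤ ((m - l : ℕ) : ℝ) := Nat.cast_nonneg _
    linarith
  by_cases hm : ∑ i, max (B.1 i) (B'.1 i) ≤ m
  · have h := hN m x B B' hx hm
    rw [hBl] at h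
    have h1 : (1 + ((m - ∑ i, max (B.1 i) (B'.1 i) : ℕ) : ℝ)) ^ d ≤ (1 + ((m - l : ℕ) : ℝ)) ^ d := by
      apply pow_le_pow_left₀ (by positivity)
      have : m - ∑ i, max (B.1 i) (B'.1 i) ≤ m - l := by omega
      have h' : ((m - ∑ i, max (B.1 i) (B'.1 i) : ℕ) : ℝ) ≤ ((m - l : ℕ) : ℝ) := by
        exact_mod_cast this
      linarith
    calc ‖Ent b m x B B'‖ ≤ C1 * ((b : ℝ) ^ l / (b : ℝ) ^ m) *
          (1 + ((m - ∑ i, max (B.1 i) (B'.1 i) : ℕ) : ℝ)) ^ d := h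
      _ ≤ C1 * ((b : ℝ) ^ l / (b : ℝ) ^ m) * (1 + ((m - l : ℕ) : ℝ)) ^ d :=
          mul_le_mul_of_nonneg_left h1 (by positivity)
      _ ≤ (C1 + C2 * (2 * C3 + C4)) * ((b : ℝ) ^ l / (b : ℝ) ^ m) *
          (1 + ((m - l : ℕ) : ℝ)) ^ d := by
          apply mul_le_mul_of_nonneg_right _ (by positivity)
          apply mul_le_mul_of_nonneg_right _ hr
          have : 0 ≤ C2 * (2 * C3 + C4) := by positivity
          linarith
  · have hm' : m ≤ ∑ i, max (B.1 i) (B'.1 i) := by omega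
    have hq : (b : ℝ) ^ m / (b : ℝ) ^ (∑ i, max (B.1 i) (B'.1 i)) ≤ 1 := by
      rw [div_le_one (by positivity)]
      exact pow_le_pow_right₀ hb1 hm'
    have h := hF m x B B'
    rw [hBl] at h
    have h1 : ∑ p, EV b B (x p) * EV b B' (x p) ≤ 2 * C3 := by
      calc ∑ p, EV b B (x p) * EV b B' (x p)
          ≤ ∑ p, ∏ i, ev b (max (B.1 i) (B'.1 i)) (x p i - r1_c b B B' i) :=
            Finset.sum_le_sum (fun p _ => r1_mul_le b B B' (x p))
        _ ≤ C3 * (1 + (b : ℝ) ^ m / (b : ℝ) ^ (∑ i, max (B.1 i) (B'.1 i))) :=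
            hO m x (fun i => max (B.1 i) (B'.1 i)) (r1_c b B B') hx
        _ ≤ C3 * (1 + 1) := mul_le_mul_of_nonneg_left (by linarith) hC3.le
        _ = 2 * C3 := by ring
    have h2 : (b : ℝ) ^ m * ∫ t, EV b B t * EV b B' t ∂haar d ≤ C4 := by
      obtain ⟨i1, i2⟩ := hI (fun i => max (B.1 i) (B'.1 i)) (r1_c b B B')
      have h3 : ∫ t, EV b B t * EV b B' t ∂haar d ≤
          ∫ t : TT d, ∏ i, ev b (max (B.1 i) (B'.1 i)) (t i - r1_c b B B' i) ∂haar d := by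
        apply integral_mono_of_nonneg _ i1 _
        · exact Filter.Eventually.of_forall
            (fun t => mul_nonneg (r1_EV_nonneg b B t) (r1_EV_nonneg b B' t))
        · exact Filter.Eventually.of_forall (fun t => r1_mul_le b B B' t)
      calc (b : ℝ) ^ m * ∫ t, EV b B t * EV b B' t ∂haar d
          ≤ (b : ℝ) ^ m * (C4 * ((b : ℝ) ^ (∑ i, max (B.1 i) (B'.1 i)))⁻¹) :=
            mul_le_mul_of_nonneg_left (h3.trans i2) (by positivity)
        _ = C4 * ((b : ℝ) ^ m / (b : ℝ) ^ (∑ i, max (B.1 i) (B'.1 i))) := by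
            rw [div_eq_mul_inv]; ring
        _ ≤ C4 * 1 := mul_le_mul_of_nonneg_left hq hC4.le
        _ = C4 := mul_one _
    calc ‖Ent b m x B B'‖ ≤ C2 * ((b : ℝ) ^ l / (b : ℝ) ^ m) *
          (∑ p, EV b B (x p) * EV b B' (x p) +
            (b : ℝ) ^ m * ∫ t, EV b B t * EV b B' t ∂haar d) := h
      _ ≤ C2 * ((b : ℝ) ^ l / (b : ℝ) ^ m) * (2 * C3 + C4) :=
          mul_le_mul_of_nonneg_left (add_le_add h1 h2) (by positivity)
      _ ≤ (C1 + C2 * (2 * C3 + C4)) * ((b : ℝ) ^ l / (b : ℝ) ^ m) := by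
          have : 0 ≤ C1 * ((b : ℝ) ^ l / (b : ℝ) ^ m) := by positivity
          linarith
      _ ≤ (C1 + C2 * (2 * C3 + C4)) * ((b : ℝ) ^ l / (b : ℝ) ^ m) *
          (1 + ((m - l : ℕ) : ℝ)) ^ d := le_mul_of_one_le_right (by positivity) hbase

end Pool.Agent.Helper37.SU
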