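import Pool.Agent.Helper37.SU.Stmts

set_option autoImplicit false

open MeasureTheory Finset
open scoped ENNReal

namespace Pool.Agent.Helper37.SU

theorem r2_ev_nonneg (b j : ℕ) (t : UnitAddCircle) : 0 ≤ ev b j t := by
  unfold ev; positivity

theorem r2_ev_le_one (b j : ℕ) (t : UnitAddCircle) : ev b j t ≤ 1 := by
  unfold ev
  apply inv_le_one_of_one_le₀
  have h : 0 ≤ (b : ℝ) ^ j * ‖t‖ := by positivity
  nlinarith

theorem r2_EV_nonneg {d : ℕ} (b : ℕ) (B : Bo d) (t : TT d) : 0 ≤ EV b B t :=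
  Finset.prod_nonneg (fun _ _ => r2_ev_nonneg _ _ _)

theorem r2_EV_le_one {d : ℕ} (b : ℕ) (B : Bo d) (t : TT d) : EV b B t ≤ 1 :=
  Finset.prod_le_one (fun _ _ => r2_ev_nonneg _ _ _) (fun _ _ => r2_ev_le_one _ _ _)

theorem r2_ev_cont (b j : ℕ) (c : UnitAddCircle) : Continuous (fun t => ev b j (t - c)) := by
  unfold ev
  apply Continuous.inv₀
  · fun_prop
  · intro t
    have h : 0 ≤ (b : ℝ) ^ j * ‖t - c‖ := by positivity
    positivity

theorem r2_EV_cont {d : ℕ} (b : ℕ) (B : Bo d) : Continuous (fun t : TT d => EV b B t) := by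
  unfold EV
  apply continuous_finsetProd
  intro i _
  exact (r2_ev_cont b (B.1 i) (pt b (B.1 i) (B.2 i))).comp (continuous_apply i)

/-- the sum of the envelopes of the boxes of `S` -/
noncomputable def r2_F {d : ℕ} (b : ℕ) (S : Finset (Bo d)) (t : TT d) : ℝ := ∑ B ∈ S, EV b B t

theorem r2_F_nonneg {d : ℕ} (b : ℕ) (S : Finset (Bo d)) (t : TT d) : 0 ≤ r2_F b S t :=
  Finset.sum_nonneg (fun _ _ => r2_EV_nonneg _ _ _)

theorem r2_F_le {d : ℕ} (b : ℕ) (S : Finset (Bo d)) (t : TT d) : r2_F b S t ≤ S.card := by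
  unfold r2_F
  calc ∑ B ∈ S, EV b B t ≤ ∑ _B ∈ S, (1 : ℝ) := Finset.sum_le_sum (fun B _ => r2_EV_le_one b B t)
    _ = S.card := by simp

theorem r2_F_cont {d : ℕ} (b : ℕ) (S : Finset (Bo d)) : Continuous (r2_F b S) := by
  unfold r2_F
  exact continuous_finsetSum _ (fun B _ => r2_EV_cont b B)

theorem r2_fin (d : ℕ) : IsFiniteMeasure (haar d) := by
  unfold haar haar1
  infer_instance

theorem r2_mem {d : ℕ} (b : ℕ) (S : Finset (Bo d)) (p : ℝ≥0∞) : MemLp (r2_F b S) p (haar d) := by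
  have := r2_fin d
  apply MemLp.of_bound (r2_F_cont b S).aestronglyMeasurable S.card
  apply Filter.Eventually.of_forall
  intro t
  rw [Real.norm_eq_abs, abs_of_nonneg (r2_F_nonneg b S t)]
  exact r2_F_le b S t

theorem r2_L2 (hSYN : ST_SYN) (b d : ℕ) (ε C₁ : ℝ) (hb : 3 ≤ b) (hε : 0 < ε) (hC₁ : 0 < C₁) :
    ∃ C : ℝ, 0 < C ∧ ∀ (n l : ℕ) (S : Finset (Bo d)), 2 ≤ n → S ⊆ lev b d l →
      (S.card : ℝ) ≤ (n : ℝ) ^ C₁ → (∫ t, r2_F b S t ^ (2 : ℝ) ∂haar d) ^ (1 / (2 : ℝ)) ≤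
        C * (Real.sqrt ((b : ℝ) ^ l)⁻¹ * ((n : ℝ) ^ (ε / 2) * Real.sqrt S.card)) := by
  have hδ : 0 < min (ε / (2 * C₁)) (1 / 2) := lt_min (by positivity) (by norm_num)
  obtain ⟨δ, hδe⟩ : ∃ δ, δ = min (ε / (2 * C₁)) (1 / 2) := ⟨_, rfl⟩
  rw [← hδe] at hδ
  have hδ1 : δ ≤ 1 / 2 := by rw [hδe]; exact min_le_right _ _
  have hδ2 : C₁ * δ ≤ ε / 2 := by
    have h : δ ≤ ε / (2 * C₁) := by rw [hδe]; exact min_le_left _ _
    calc C₁ * δ ≤ C₁ * (ε / (2 * C₁)) := mul_le_mul_of_nonneg_left h hC₁.le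
      _ = ε / 2 := by field_simp
  have hu0 : 0 < 1 / 2 + δ := by positivity
  have hu1 : (1 : ℝ) ≤ 1 / (1 / 2 + δ) := by
    rw [le_div_iff₀ hu0]
    linarith
  have hu2 : 1 / (1 / 2 + δ) < 2 := by
    rw [div_lt_iff₀ hu0]
    linarith
  obtain ⟨C, hC, hY⟩ := hSYN b d (1 / (1 / 2 + δ)) 2 (by omega) hu1 hu2
  refine ⟨C, hC, ?_⟩
  intro n l S hn hS hcard
  have hn0 : (0 : ℝ) < n := by
    have : 0 < n := by omega
    exact_mod_cast this
  have hn1 : (1 : ℝ) ≤ n := by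
    have : 1 ≤ n := by omega
    exact_mod_cast this
  have hb0 : (0 : ℝ) < b := by
    have : 0 < b := by omega
    exact_mod_cast this
  have h := hY l S id (fun _ => 1) (fun B t => ((EV b B t : ℝ) : ℂ)) (fun B hB => hS hB)
    (fun _ _ _ _ h => h) (by
      intro B _ t
      rw [Complex.norm_real, Real.norm_eq_abs, abs_of_nonneg (r2_EV_nonneg b B t)]
      exact le_refl _)
  have e1 : eLpNorm (fun t : TT d => ∑ B ∈ S, (fun _ => (1 : ℂ)) B * (fun B t => ((EV b B t : ℝ) : ℂ)) B t)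
      (ENNReal.ofReal 2) (haar d) = eLpNorm (r2_F b S) (ENNReal.ofReal 2) (haar d) := by
    apply eLpNorm_congr_norm_ae
    apply Filter.Eventually.of_forall
    intro t
    have e2 : ∑ B ∈ S, (fun _ => (1 : ℂ)) B * (fun B t => ((EV b B t : ℝ) : ℂ)) B t =
        ((r2_F b S t : ℝ) : ℂ) := by
      unfold r2_F
      push_cast
      apply Finset.sum_congr rfl
      intro B _
      show (1 : ℂ) * ((EV b B t : ℝ) : ℂ) = ((EV b B t : ℝ) : ℂ)
      rw [one_mul]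
    show ‖∑ B ∈ S, (fun _ => (1 : ℂ)) B * (fun B t => ((EV b B t : ℝ) : ℂ)) B t‖ = ‖r2_F b S t‖
    rw [e2, Complex.norm_real]
  rw [e1] at h
  have h2ne : ENNReal.ofReal 2 ≠ 0 := by
    rw [ENNReal.ofReal_ne_zero_iff]
    norm_num
  rw [MemLp.eLpNorm_eq_integral_rpow_norm h2ne ENNReal.ofReal_ne_top (r2_mem b S _),
    ENNReal.toReal_ofReal (by norm_num : (0 : ℝ) ≤ 2)] at h
  have hlp : lp (1 / (1 / 2 + δ)) S (fun _ => (1 : ℂ)) ≤ (n : ℝ) ^ (ε / 2) * Real.sqrt S.card := by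
    unfold lp
    have e3 : ∑ i ∈ S, ‖(fun _ : Bo d => (1 : ℂ)) i‖ ^ (1 / (1 / 2 + δ)) = (S.card : ℝ) := by
      simp
    rw [e3, one_div_one_div]
    rcases Nat.eq_zero_or_pos S.card with h0 | h0
    · rw [h0]
      simp only [Nat.cast_zero, Real.sqrt_zero, mul_zero]
      rw [Real.zero_rpow hu0.ne']
    · have hc : (0 : ℝ) < S.card := by exact_mod_cast h0
      rw [Real.rpow_add hc, ← Real.sqrt_eq_rpow, mul_comm]
      apply mul_le_mul_of_nonneg_right _ (Real.sqrt_nonneg _)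
      calc (S.card : ℝ) ^ δ ≤ ((n : ℝ) ^ C₁) ^ δ := Real.rpow_le_rpow hc.le hcard hδ.le
        _ = (n : ℝ) ^ (C₁ * δ) := by rw [← Real.rpow_mul hn0.le]
        _ ≤ (n : ℝ) ^ (ε / 2) := Real.rpow_le_rpow_of_exponent_le hn1 hδ2
  have hrhs : 0 ≤ C * (b : ℝ) ^ (-((l : ℝ) / 2)) * lp (1 / (1 / 2 + δ)) S (fun _ => (1 : ℂ)) := by
    apply mul_nonneg (by positivity)
    unfold lp
    positivity
  rw [ENNReal.ofReal_le_ofReal_iff hrhs] at h
  have e4 : ∫ t, r2_F b S t ^ (2 : ℝ) ∂haar d = ∫ t, ‖r2_F b S t‖ ^ (2 : ℝ) ∂haar d := by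
    apply integral_congr_ae
    apply Filter.Eventually.of_forall
    intro t
    show r2_F b S t ^ (2 : ℝ) = ‖r2_F b S t‖ ^ (2 : ℝ)
    rw [Real.norm_eq_abs, abs_of_nonneg (r2_F_nonneg b S t)]
  have e5 : (b : ℝ) ^ (-((l : ℝ) / 2)) = Real.sqrt ((b : ℝ) ^ l)⁻¹ := by
    rw [Real.sqrt_inv, Real.sqrt_eq_rpow, ← Real.rpow_natCast, ← Real.rpow_mul hb0.le,
      ← Real.rpow_neg hb0.le]
    congr 1
    ring
  rw [e4, one_div]
  calc _ ≤ _ := h
    _ = C * (Real.sqrt ((b : ℝ) ^ l)⁻¹ * lp (1 / (1 / 2 + δ)) S (fun _ => (1 : ℂ))) := by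
        rw [e5]; ring
    _ ≤ _ := by
        apply mul_le_mul_of_nonneg_left _ hC.le
        exact mul_le_mul_of_nonneg_left hlp (Real.sqrt_nonneg _)

theorem st_R2 (hENF : ST_ENF) (hTLE : ST_TLE) (hSYN : ST_SYN) : ST_R2 := by
  intro b d ε C₁ hb hd hε hC₁
  obtain ⟨C2, hC2, hF⟩ := hENF b d hb
  obtain ⟨C3, hC3, hT⟩ := hTLE b d ε C₁ (by omega) hd hε hC₁
  obtain ⟨C4, hC4, hL⟩ := r2_L2 hSYN b d ε C₁ hb hε hC₁
  refine ⟨C2 * (C3 + C4 * C4), by positivity, ?_⟩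
  intro n m l l' x S S' hn hx hl hl' hm hm' hS hS' hc hc'
  have hn0 : (0 : ℝ) < n := by
    have : 0 < n := by omega
    exact_mod_cast this
  have hb0 : (0 : ℝ) < b := by
    have : 0 < b := by omega
    exact_mod_cast this
  have hr : 0 ≤ (b : ℝ) ^ l / (b : ℝ) ^ m := by positivity
  obtain ⟨a, ha⟩ : ∃ a, a = (b : ℝ) ^ m / (b : ℝ) ^ l := ⟨_, rfl⟩
  obtain ⟨a', ha'⟩ : ∃ a', a' = (b : ℝ) ^ m / (b : ℝ) ^ l' := ⟨_, rfl⟩
  have ha0 : 0 ≤ a := by rw [ha]; positivity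
  have ha0' : 0 ≤ a' := by rw [ha']; positivity
  obtain ⟨P, hP⟩ : ∃ P, P = (n : ℝ) ^ (d - 1) + a := ⟨_, rfl⟩
  obtain ⟨P', hP'⟩ : ∃ P', P' = (n : ℝ) ^ (d - 1) + a' := ⟨_, rfl⟩
  have hnd : 0 ≤ (n : ℝ) ^ (d - 1) := by positivity
  have hPa : a ≤ P := by rw [hP]; linarith
  have hPa' : a' ≤ P' := by rw [hP']; linarith
  have hP0 : 0 ≤ P := ha0.trans hPa
  have hP0' : 0 ≤ P' := ha0'.trans hPa'
  have hnε : 0 ≤ (n : ℝ) ^ ε := by positivity
  have hsC : (0 : ℝ) ≤ S.card := Nat.cast_nonneg _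
  have hsC' : (0 : ℝ) ≤ S'.card := Nat.cast_nonneg _
  -- first term
  have t1 : ∑ p, r2_F b S (x p) * r2_F b S' (x p) ≤
      C3 * ((n : ℝ) ^ ε * (Real.sqrt (P * P') * Real.sqrt ((S.card : ℝ) * S'.card))) := by
    have h1 : ∑ p, r2_F b S (x p) ^ 2 ≤ C3 * (n : ℝ) ^ ε * P * S.card := by
      have h := hT n m l x S hn hx hl hm hS hc
      rw [← ha, ← hP] at h
      exact h
    have h2 : ∑ p, r2_F b S' (x p) ^ 2 ≤ C3 * (n : ℝ) ^ ε * P' * S'.card := by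
      have h := hT n m l' x S' hn hx hl' hm' hS' hc'
      rw [← ha', ← hP'] at h
      exact h
    have h3 := Real.sum_mul_le_sqrt_mul_sqrt univ (fun p => r2_F b S (x p))
      (fun p => r2_F b S' (x p))
    calc _ ≤ _ := h3
      _ ≤ Real.sqrt (C3 * (n : ℝ) ^ ε * P * S.card) * Real.sqrt (C3 * (n : ℝ) ^ ε * P' * S'.card) :=
          mul_le_mul (Real.sqrt_le_sqrt h1) (Real.sqrt_le_sqrt h2) (Real.sqrt_nonneg _)
            (Real.sqrt_nonneg _)
      _ = Real.sqrt ((C3 * (n : ℝ) ^ ε) ^ 2 * ((P * P') * ((S.card : ℝ) * S'.card))) := by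
          rw [← Real.sqrt_mul (by positivity)]
          congr 1
          ring
      _ = C3 * ((n : ℝ) ^ ε * (Real.sqrt (P * P') * Real.sqrt ((S.card : ℝ) * S'.card))) := by
          rw [Real.sqrt_mul (by positivity), Real.sqrt_sq (by positivity),
            Real.sqrt_mul (by positivity)]
          ring
  -- second term
  have t2 : (b : ℝ) ^ m * ∫ t, r2_F b S t * r2_F b S' t ∂haar d ≤
      C4 * C4 * ((n : ℝ) ^ ε * (Real.sqrt (P * P') * Real.sqrt ((S.card : ℝ) * S'.card))) := by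
    have hconj : (2 : ℝ).HolderConjugate 2 := by
      rw [Real.holderConjugate_iff]
      norm_num
    have h1 := integral_mul_le_Lp_mul_Lq_of_nonneg (μ := haar d) hconj
      (Filter.Eventually.of_forall (r2_F_nonneg b S))
      (Filter.Eventually.of_forall (r2_F_nonneg b S')) (r2_mem b S _) (r2_mem b S' _)
    have h2 := hL n l S hn hS hc
    have h3 := hL n l' S' hn hS' hc'
    have hnn : (n : ℝ) ^ (ε / 2) * (n : ℝ) ^ (ε / 2) = (n : ℝ) ^ ε := by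
      rw [← Real.rpow_add hn0]
      congr 1
      ring
    have hbb : (b : ℝ) ^ m * (Real.sqrt ((b : ℝ) ^ l)⁻¹ * Real.sqrt ((b : ℝ) ^ l')⁻¹) =
        Real.sqrt (a * a') := by
      have e1 : (b : ℝ) ^ m = Real.sqrt (((b : ℝ) ^ m) ^ 2) := (Real.sqrt_sq (by positivity)).symm
      rw [← Real.sqrt_mul (by positivity)]
      rw [show (b : ℝ) ^ m * Real.sqrt (((b : ℝ) ^ l)⁻¹ * ((b : ℝ) ^ l')⁻¹) =
        Real.sqrt (((b : ℝ) ^ m) ^ 2) * Real.sqrt (((b : ℝ) ^ l)⁻¹ * ((b : ℝ) ^ l')⁻¹) by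
        rw [← e1]]
      rw [← Real.sqrt_mul (by positivity), ha, ha']
      congr 1
      rw [div_eq_mul_inv, div_eq_mul_inv]
      ring
    have haa : Real.sqrt (a * a') ≤ Real.sqrt (P * P') :=
      Real.sqrt_le_sqrt (mul_le_mul hPa hPa' ha0' hP0)
    calc (b : ℝ) ^ m * ∫ t, r2_F b S t * r2_F b S' t ∂haar d
        ≤ (b : ℝ) ^ m * ((∫ t, r2_F b S t ^ (2 : ℝ) ∂haar d) ^ (1 / (2 : ℝ)) *
          (∫ t, r2_F b S' t ^ (2 : ℝ) ∂haar d) ^ (1 / (2 : ℝ))) :=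
          mul_le_mul_of_nonneg_left h1 (by positivity)
      _ ≤ (b : ℝ) ^ m * ((C4 * (Real.sqrt ((b : ℝ) ^ l)⁻¹ * ((n : ℝ) ^ (ε / 2) * Real.sqrt S.card))) *
          (C4 * (Real.sqrt ((b : ℝ) ^ l')⁻¹ * ((n : ℝ) ^ (ε / 2) * Real.sqrt S'.card)))) := by
          apply mul_le_mul_of_nonneg_left _ (by positivity)
          apply mul_le_mul h2 h3 _ (by positivity)
          apply Real.rpow_nonneg
          apply integral_nonneg
          intro t
          exact Real.rpow_nonneg (r2_F_nonneg b S' t) _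
      _ = C4 * C4 * (((n : ℝ) ^ (ε / 2) * (n : ℝ) ^ (ε / 2)) *
          (((b : ℝ) ^ m * (Real.sqrt ((b : ℝ) ^ l)⁻¹ * Real.sqrt ((b : ℝ) ^ l')⁻¹)) *
          (Real.sqrt S.card * Real.sqrt S'.card))) := by ring
      _ = C4 * C4 * ((n : ℝ) ^ ε * (Real.sqrt (a * a') * Real.sqrt ((S.card : ℝ) * S'.card))) := by
          rw [hnn, hbb, Real.sqrt_mul hsC]
      _ ≤ C4 * C4 * ((n : ℝ) ^ ε * (Real.sqrt (P * P') * Real.sqrt ((S.card : ℝ) * S'.card))) := by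
          apply mul_le_mul_of_nonneg_left _ (by positivity)
          apply mul_le_mul_of_nonneg_left _ hnε
          exact mul_le_mul_of_nonneg_right haa (Real.sqrt_nonneg _)
  -- assembly
  have hint : ∀ B B' : Bo d, Integrable (fun t : TT d => EV b B t * EV b B' t) (haar d) := by
    intro B B'
    have := r2_fin d
    have hm1 : MemLp (fun t : TT d => EV b B t * EV b B' t) 1 (haar d) := by
      apply MemLp.of_bound ((r2_EV_cont b B).mul (r2_EV_cont b B')).aestronglyMeasurable 1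
      apply Filter.Eventually.of_forall
      intro t
      show ‖EV b B t * EV b B' t‖ ≤ 1
      rw [Real.norm_eq_abs, abs_of_nonneg (mul_nonneg (r2_EV_nonneg _ _ _) (r2_EV_nonneg _ _ _))]
      exact mul_le_one₀ (r2_EV_le_one _ _ _) (r2_EV_nonneg _ _ _) (r2_EV_le_one _ _ _)
    exact hm1.integrable (le_refl _)
  have s1 : ∑ B ∈ S, ∑ B' ∈ S', ‖Ent b m x B B'‖ ≤ ∑ B ∈ S, ∑ B' ∈ S',
      C2 * ((b : ℝ) ^ l / (b : ℝ) ^ m) * (∑ p, EV b B (x p) * EV b B' (x p) +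
        (b : ℝ) ^ m * ∫ t, EV b B t * EV b B' t ∂haar d) := by
    apply Finset.sum_le_sum
    intro B hB
    apply Finset.sum_le_sum
    intro B' _
    have h := hF m x B B'
    rw [(mem_lev.1 (hS hB)).1] at h
    exact h
  have s2 : ∑ B ∈ S, ∑ B' ∈ S',
      C2 * ((b : ℝ) ^ l / (b : ℝ) ^ m) * (∑ p, EV b B (x p) * EV b B' (x p) +
        (b : ℝ) ^ m * ∫ t, EV b B t * EV b B' t ∂haar d) =
      C2 * ((b : ℝ) ^ l / (b : ℝ) ^ m) * (∑ p, r2_F b S (x p) * r2_F b S' (x p) +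
        (b : ℝ) ^ m * ∫ t, r2_F b S t * r2_F b S' t ∂haar d) := by
    have e1 : ∑ p, r2_F b S (x p) * r2_F b S' (x p) =
        ∑ B ∈ S, ∑ B' ∈ S', ∑ p, EV b B (x p) * EV b B' (x p) := by
      unfold r2_F
      simp only [Finset.sum_mul_sum]
      rw [Finset.sum_comm]
      apply Finset.sum_congr rfl
      intro B _
      rw [Finset.sum_comm]
    have e2 : ∫ t, r2_F b S t * r2_F b S' t ∂haar d =
        ∑ B ∈ S, ∑ B' ∈ S', ∫ t, EV b B t * EV b B' t ∂haar d := by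
      unfold r2_F
      simp only [Finset.sum_mul_sum]
      rw [integral_finsetSum _ (fun B _ => integrable_finsetSum _ (fun B' _ => hint B B'))]
      apply Finset.sum_congr rfl
      intro B _
      rw [integral_finsetSum _ (fun B' _ => hint B B')]
    rw [e1, e2, Finset.mul_sum, ← Finset.sum_add_distrib, Finset.mul_sum]
    apply Finset.sum_congr rfl
    intro B _
    rw [Finset.mul_sum, ← Finset.sum_add_distrib, Finset.mul_sum]
  rw [← ha, ← ha', ← hP, ← hP']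
  calc _ ≤ _ := s1
    _ = _ := s2
    _ ≤ C2 * ((b : ℝ) ^ l / (b : ℝ) ^ m) *
        (C3 * ((n : ℝ) ^ ε * (Real.sqrt (P * P') * Real.sqrt ((S.card : ℝ) * S'.card))) +
        C4 * C4 * ((n : ℝ) ^ ε * (Real.sqrt (P * P') * Real.sqrt ((S.card : ℝ) * S'.card)))) :=
        mul_le_mul_of_nonneg_left (add_le_add t1 t2) (by positivity)
    _ = _ := by ring

end Pool.Agent.Helper37.SU
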