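import Pool.Agent.Helper37.SU.Stmts

set_option autoImplicit false

open MeasureTheory Finset

namespace Pool.Agent.Helper37.SU

theorem r3_ev_nonneg (b j : ℕ) (t : UnitAddCircle) : 0 ≤ ev b j t := by
  unfold ev; positivity

theorem r3_ev_le_one (b j : ℕ) (t : UnitAddCircle) : ev b j t ≤ 1 := by
  unfold ev
  apply inv_le_one_of_one_le₀
  have h : 0 ≤ (b : ℝ) ^ j * ‖t‖ := by positivity
  nlinarith

theorem r3_EV_nonneg {d : ℕ} (b : ℕ) (B : Bo d) (t : TT d) : 0 ≤ EV b B t :=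
  Finset.prod_nonneg (fun _ _ => r3_ev_nonneg _ _ _)

theorem r3_EV_le_one {d : ℕ} (b : ℕ) (B : Bo d) (t : TT d) : EV b B t ≤ 1 :=
  Finset.prod_le_one (fun _ _ => r3_ev_nonneg _ _ _) (fun _ _ => r3_ev_le_one _ _ _)

theorem r3_lev {b d : ℕ} {C4 : ℝ} (hd : 1 ≤ d) (hC4 : 0 < C4)
    (hS : ∀ (s : Fin d → ℕ) (t : TT d), ∑ a ∈ gr b s, EV b (s, a) t ≤ C4) (l : ℕ) (t : TT d) :
    ∑ B ∈ lev b d l, EV b B t ≤ C4 * (1 + (l : ℝ)) ^ (d - 1) := by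
  rw [sum_lev]
  calc ∑ s ∈ shp d l, ∑ a ∈ gr b s, EV b (s, a) t ≤ ∑ _s ∈ shp d l, C4 :=
        Finset.sum_le_sum (fun s _ => hS s t)
    _ = (shp d l).card * C4 := by rw [Finset.sum_const, nsmul_eq_mul]
    _ ≤ (1 + (l : ℝ)) ^ (d - 1) * C4 := by
        apply mul_le_mul_of_nonneg_right _ hC4.le
        have h := card_shp_le (d := d) (l := l) hd
        have h' : ((shp d l).card : ℝ) ≤ (((l + 1) ^ (d - 1) : ℕ) : ℝ) := by exact_mod_cast h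
        push_cast at h'
        rw [add_comm] at h'
        exact h'
    _ = C4 * (1 + (l : ℝ)) ^ (d - 1) := mul_comm _ _

theorem r3_main {b d : ℕ} {C3 C4 : ℝ} (hb : 3 ≤ b) (hd : 1 ≤ d) (hC4 : 0 < C4)
    (hO : ∀ (m : ℕ) (x : Fin (b ^ m) → TT d) (σ : Fin d → ℕ) (c : TT d), IsNet b d m x →
      ∑ p, ∏ i, ev b (σ i) (x p i - c i) ≤ C3 * (1 + (b : ℝ) ^ m / (b : ℝ) ^ (∑ i, σ i)))
    (hI : ∀ (σ : Fin d → ℕ) (c : TT d),
      Integrable (fun t : TT d => ∏ i, ev b (σ i) (t i - c i)) (haar d) ∧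
      ∫ t : TT d, ∏ i, ev b (σ i) (t i - c i) ∂haar d ≤ C4 * ((b : ℝ) ^ (∑ i, σ i))⁻¹)
    (hS : ∀ (s : Fin d → ℕ) (t : TT d), ∑ a ∈ gr b s, EV b (s, a) t ≤ C4)
    (m l0 l1 : ℕ) (x : Fin (b ^ m) → TT d) (hx : IsNet b d m x) (B0 : Bo d)
    (hB0 : ∑ i, B0.1 i = l0) :
    ∑ B ∈ lev b d l1, (∑ p, EV b B0 (x p) * EV b B (x p) +
      (b : ℝ) ^ m * ∫ t, EV b B0 t * EV b B t ∂haar d) ≤
    C4 * (1 + (l1 : ℝ)) ^ (d - 1) * (C3 * (1 + (b : ℝ) ^ m / (b : ℝ) ^ l0) +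
      C4 * ((b : ℝ) ^ m / (b : ℝ) ^ l0)) := by
  have hb0 : (0 : ℝ) < b := by
    have : 0 < b := by omega
    exact_mod_cast this
  have hint : ∀ B : Bo d, Integrable (fun t : TT d => EV b B t) (haar d) := by
    intro B
    have h := (hI B.1 (ptv b B)).1
    exact h
  have hL : 0 ≤ C4 * (1 + (l1 : ℝ)) ^ (d - 1) := by positivity
  rw [Finset.sum_add_distrib]
  have h1 : ∑ B ∈ lev b d l1, ∑ p, EV b B0 (x p) * EV b B (x p) ≤
      C4 * (1 + (l1 : ℝ)) ^ (d - 1) * (C3 * (1 + (b : ℝ) ^ m / (b : ℝ) ^ l0)) := by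
    rw [Finset.sum_comm]
    have h2 : ∑ p, ∑ B ∈ lev b d l1, EV b B0 (x p) * EV b B (x p) ≤
        ∑ p, EV b B0 (x p) * (C4 * (1 + (l1 : ℝ)) ^ (d - 1)) := by
      apply Finset.sum_le_sum
      intro p _
      rw [← Finset.mul_sum]
      exact mul_le_mul_of_nonneg_left (r3_lev hd hC4 hS l1 (x p)) (r3_EV_nonneg _ _ _)
    rw [← Finset.sum_mul] at h2
    have h3 : ∑ p, EV b B0 (x p) ≤ C3 * (1 + (b : ℝ) ^ m / (b : ℝ) ^ l0) := by
      have h4 := hO m x B0.1 (ptv b B0) hx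
      rw [hB0] at h4
      exact h4
    calc _ ≤ (∑ p, EV b B0 (x p)) * (C4 * (1 + (l1 : ℝ)) ^ (d - 1)) := h2
      _ ≤ (C3 * (1 + (b : ℝ) ^ m / (b : ℝ) ^ l0)) * (C4 * (1 + (l1 : ℝ)) ^ (d - 1)) :=
          mul_le_mul_of_nonneg_right h3 hL
      _ = _ := by ring
  have h5 : ∑ B ∈ lev b d l1, (b : ℝ) ^ m * ∫ t, EV b B0 t * EV b B t ∂haar d ≤
      C4 * (1 + (l1 : ℝ)) ^ (d - 1) * (C4 * ((b : ℝ) ^ m / (b : ℝ) ^ l0)) := by
    rw [← Finset.mul_sum]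
    have hprod : ∀ B ∈ lev b d l1, Integrable (fun t : TT d => EV b B0 t * EV b B t) (haar d) := by
      intro B _
      apply (hint B0).mul_bdd (c := 1) (hint B).aestronglyMeasurable
      apply Filter.Eventually.of_forall
      intro t
      rw [Real.norm_eq_abs, abs_of_nonneg (r3_EV_nonneg _ _ _)]
      exact r3_EV_le_one _ _ _
    rw [← integral_finsetSum _ hprod]
    have h6 : ∫ t, ∑ B ∈ lev b d l1, EV b B0 t * EV b B t ∂haar d ≤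
        ∫ t, EV b B0 t * (C4 * (1 + (l1 : ℝ)) ^ (d - 1)) ∂haar d := by
      apply integral_mono (integrable_finsetSum _ hprod) ((hint B0).mul_const _)
      intro t
      show ∑ B ∈ lev b d l1, EV b B0 t * EV b B t ≤ EV b B0 t * (C4 * (1 + (l1 : ℝ)) ^ (d - 1))
      rw [← Finset.mul_sum]
      exact mul_le_mul_of_nonneg_left (r3_lev hd hC4 hS l1 t) (r3_EV_nonneg _ _ _)
    rw [integral_mul_const] at h6
    have h7 : ∫ t, EV b B0 t ∂haar d ≤ C4 * ((b : ℝ) ^ l0)⁻¹ := by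
      have h8 := (hI B0.1 (ptv b B0)).2
      rw [hB0] at h8
      exact h8
    calc (b : ℝ) ^ m * ∫ t, ∑ B ∈ lev b d l1, EV b B0 t * EV b B t ∂haar d
        ≤ (b : ℝ) ^ m * ((∫ t, EV b B0 t ∂haar d) * (C4 * (1 + (l1 : ℝ)) ^ (d - 1))) :=
          mul_le_mul_of_nonneg_left h6 (by positivity)
      _ ≤ (b : ℝ) ^ m * ((C4 * ((b : ℝ) ^ l0)⁻¹) * (C4 * (1 + (l1 : ℝ)) ^ (d - 1))) := by
          apply mul_le_mul_of_nonneg_left _ (by positivity)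
          exact mul_le_mul_of_nonneg_right h7 hL
      _ = C4 * (1 + (l1 : ℝ)) ^ (d - 1) * (C4 * ((b : ℝ) ^ m / (b : ℝ) ^ l0)) := by
          rw [div_eq_mul_inv]; ring
  calc _ ≤ C4 * (1 + (l1 : ℝ)) ^ (d - 1) * (C3 * (1 + (b : ℝ) ^ m / (b : ℝ) ^ l0)) +
        C4 * (1 + (l1 : ℝ)) ^ (d - 1) * (C4 * ((b : ℝ) ^ m / (b : ℝ) ^ l0)) := add_le_add h1 h5
    _ = _ := by ring

theorem st_R3 (hENF : ST_ENF) (hOVX : ST_OVX) (hEVI : ST_EVI) : ST_R3 := by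
  intro b d hb hd
  obtain ⟨C2, hC2, hF⟩ := hENF b d hb
  obtain ⟨C3, hC3, hO⟩ := hOVX b d (by omega)
  obtain ⟨C4, hC4, hI, hS⟩ := hEVI b d (by omega)
  refine ⟨C2 * C4 * (2 * C3 + C4), by positivity, ?_⟩
  intro m l l' x hx hlm
  have hb0 : (0 : ℝ) < b := by
    have : 0 < b := by omega
    exact_mod_cast this
  have hb1 : (1 : ℝ) ≤ b := by
    have : 1 ≤ b := by omega
    exact_mod_cast this
  have hr : 0 ≤ (b : ℝ) ^ l / (b : ℝ) ^ m := by positivity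
  have hr1 : (b : ℝ) ^ l / (b : ℝ) ^ m ≤ 1 := by
    rw [div_le_one (by positivity)]
    exact pow_le_pow_right₀ hb1 hlm
  have hrr : (b : ℝ) ^ l / (b : ℝ) ^ m * ((b : ℝ) ^ m / (b : ℝ) ^ l) = 1 := by
    field_simp
  constructor
  · intro B hB
    have hBl : ∑ i, B.1 i = l := (mem_lev.1 hB).1
    have h1 : ∑ B' ∈ lev b d l', ‖Ent b m x B B'‖ ≤ ∑ B' ∈ lev b d l',
        C2 * ((b : ℝ) ^ l / (b : ℝ) ^ m) * (∑ p, EV b B (x p) * EV b B' (x p) +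
          (b : ℝ) ^ m * ∫ t, EV b B t * EV b B' t ∂haar d) := by
      apply Finset.sum_le_sum
      intro B' _
      have h := hF m x B B'
      rw [hBl] at h
      exact h
    rw [← Finset.mul_sum] at h1
    have h2 := r3_main hb hd hC4 hO hI hS m l l' x hx B hBl
    calc _ ≤ _ := h1
      _ ≤ C2 * ((b : ℝ) ^ l / (b : ℝ) ^ m) * (C4 * (1 + (l' : ℝ)) ^ (d - 1) *
          (C3 * (1 + (b : ℝ) ^ m / (b : ℝ) ^ l) + C4 * ((b : ℝ) ^ m / (b : ℝ) ^ l))) :=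
          mul_le_mul_of_nonneg_left h2 (by positivity)
      _ = C2 * C4 * (1 + (l' : ℝ)) ^ (d - 1) * (C3 * ((b : ℝ) ^ l / (b : ℝ) ^ m +
          (b : ℝ) ^ l / (b : ℝ) ^ m * ((b : ℝ) ^ m / (b : ℝ) ^ l)) +
          C4 * ((b : ℝ) ^ l / (b : ℝ) ^ m * ((b : ℝ) ^ m / (b : ℝ) ^ l))) := by ring
      _ = C2 * C4 * (1 + (l' : ℝ)) ^ (d - 1) * (C3 * ((b : ℝ) ^ l / (b : ℝ) ^ m + 1) + C4) := by
          rw [hrr]; ring
      _ ≤ C2 * C4 * (1 + (l' : ℝ)) ^ (d - 1) * (C3 * (1 + 1) + C4) := by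
          apply mul_le_mul_of_nonneg_left _ (by positivity)
          have : C3 * ((b : ℝ) ^ l / (b : ℝ) ^ m + 1) ≤ C3 * (1 + 1) :=
            mul_le_mul_of_nonneg_left (by linarith) hC3.le
          linarith
      _ = C2 * C4 * (2 * C3 + C4) * (1 + (l' : ℝ)) ^ (d - 1) := by ring
  · intro B' hB'
    have hBl' : ∑ i, B'.1 i = l' := (mem_lev.1 hB').1
    have h1 : ∑ B ∈ lev b d l, ‖Ent b m x B B'‖ ≤ ∑ B ∈ lev b d l,
        C2 * ((b : ℝ) ^ l / (b : ℝ) ^ m) * (∑ p, EV b B' (x p) * EV b B (x p) +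
          (b : ℝ) ^ m * ∫ t, EV b B' t * EV b B t ∂haar d) := by
      apply Finset.sum_le_sum
      intro B hB
      have hBl : ∑ i, B.1 i = l := (mem_lev.1 hB).1
      have h := hF m x B B'
      rw [hBl] at h
      have e1 : ∑ p, EV b B' (x p) * EV b B (x p) = ∑ p, EV b B (x p) * EV b B' (x p) :=
        Finset.sum_congr rfl (fun p _ => mul_comm _ _)
      have e2 : ∫ t, EV b B' t * EV b B t ∂haar d = ∫ t, EV b B t * EV b B' t ∂haar d :=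
        integral_congr_ae (Filter.Eventually.of_forall (fun t => mul_comm _ _))
      rw [e1, e2]
      exact h
    rw [← Finset.mul_sum] at h1
    have h2 := r3_main hb hd hC4 hO hI hS m l' l x hx B' hBl'
    have hq : 0 ≤ (b : ℝ) ^ m / (b : ℝ) ^ l' := by positivity
    calc _ ≤ _ := h1
      _ ≤ C2 * ((b : ℝ) ^ l / (b : ℝ) ^ m) * (C4 * (1 + (l : ℝ)) ^ (d - 1) *
          (C3 * (1 + (b : ℝ) ^ m / (b : ℝ) ^ l') + C4 * ((b : ℝ) ^ m / (b : ℝ) ^ l'))) :=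
          mul_le_mul_of_nonneg_left h2 (by positivity)
      _ ≤ C2 * ((b : ℝ) ^ l / (b : ℝ) ^ m) * (C4 * (1 + (l : ℝ)) ^ (d - 1) *
          ((2 * C3 + C4) * (1 + (b : ℝ) ^ m / (b : ℝ) ^ l'))) := by
          apply mul_le_mul_of_nonneg_left _ (by positivity)
          apply mul_le_mul_of_nonneg_left _ (by positivity)
          have h3 : 0 ≤ C3 * (1 + (b : ℝ) ^ m / (b : ℝ) ^ l') := by positivity
          have h4 : (2 * C3 + C4) * (1 + (b : ℝ) ^ m / (b : ℝ) ^ l') =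
            2 * (C3 * (1 + (b : ℝ) ^ m / (b : ℝ) ^ l')) + C4 + C4 * ((b : ℝ) ^ m / (b : ℝ) ^ l') := by
            ring
          rw [h4]
          linarith
      _ = C2 * C4 * (2 * C3 + C4) * (1 + (l : ℝ)) ^ (d - 1) * ((b : ℝ) ^ l / (b : ℝ) ^ m) *
          (1 + (b : ℝ) ^ m / (b : ℝ) ^ l') := by ring

end Pool.Agent.Helper37.SU
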